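import Pool.Agent.P8H15.FG.Stm2

/-!
# Project FG, package BABS: summability and bound of an Euler product
-/

set_option autoImplicit false

open Finset Pool.Agent.P8H15.FG

namespace Pool.Agent.P8H71.FG

/-- the multiplicative function -/
noncomputable def f (k n : ℕ) : ℝ := |bb k n| * (n : ℝ) ^ (1 / 4 : ℝ)

theorem bb_one (k : ℕ) : bb k 1 = 1 := by
  simp [bb]

theorem bb_pow (k : ℕ) {p a : ℕ} (hp : p.Prime) (ha : a ≠ 0) : bb k (p ^ a) = bp k p a := by
  unfold bb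
  rw [if_neg (pow_ne_zero a hp.ne_zero), Nat.primeFactors_pow p ha, hp.primeFactors,
    prod_singleton, hp.factorization_pow]
  simp

theorem bb_mul (k : ℕ) {m n : ℕ} (h : m.Coprime n) : bb k (m * n) = bb k m * bb k n := by
  by_cases hm : m = 0
  · subst hm
    simp [bb]
  by_cases hn : n = 0
  · subst hn
    simp [bb]
  unfold bb
  rw [if_neg (mul_ne_zero hm hn), if_neg hm, if_neg hn, h.primeFactors_mul,
    prod_union h.disjoint_primeFactors]
  congr 1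
  · refine prod_congr rfl fun p hp => ?_
    rw [Nat.factorization_eq_of_coprime_left h (Nat.mem_primeFactorsList' |>.2
      (Nat.mem_primeFactors.1 hp))]
  · refine prod_congr rfl fun p hp => ?_
    rw [Nat.factorization_eq_of_coprime_right h (Nat.mem_primeFactorsList' |>.2
      (Nat.mem_primeFactors.1 hp))]

theorem f_nonneg (k n : ℕ) : 0 ≤ f k n := by
  unfold f
  positivity

theorem f_one (k : ℕ) : f k 1 = 1 := by
  simp [f, bb_one]

theorem f_mul (k : ℕ) {m n : ℕ} (h : m.Coprime n) : f k (m * n) = f k m * f k n := by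
  unfold f
  rw [bb_mul k h, abs_mul, Nat.cast_mul, Real.mul_rpow (Nat.cast_nonneg _) (Nat.cast_nonneg _)]
  ring

theorem f_zero (k : ℕ) : f k 0 = 0 := by
  simp [f, bb]

theorem f_pow_zero (k : ℕ) {p a : ℕ} (hp : p.Prime) (ha : a ∉ range 3) : f k (p ^ a) = 0 := by
  rw [mem_range, not_lt] at ha
  unfold f
  rw [bb_pow k hp (by omega)]
  have h1 : a ≠ 1 := by omega
  have h2 : a ≠ 2 := by omega
  simp [bp, h1, h2]

theorem hasSum_pow (k : ℕ) {p : ℕ} (hp : p.Prime) :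
    HasSum (fun a => f k (p ^ a)) (∑ a ∈ range 3, f k (p ^ a)) :=
  hasSum_sum_of_ne_finset_zero fun _ ha => f_pow_zero k hp ha

/-- the local factor -/
noncomputable def g (k p : ℕ) : ℝ := if p ∣ k then 1 + (p : ℝ) ^ (-(3 / 4) : ℝ) else 1

theorem one_le_g (k p : ℕ) : 1 ≤ g k p := by
  unfold g
  split_ifs
  · have : 0 ≤ (p : ℝ) ^ (-(3 / 4) : ℝ) := Real.rpow_nonneg (Nat.cast_nonneg _) _
    linarith
  · exact le_rfl

theorem factor_le {k : ℕ} (hk : Even k) {p : ℕ} (hp : p.Prime) :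
    ∑ a ∈ range 3, f k (p ^ a) ≤ Real.exp (9 * (p : ℝ) ^ (-(3 / 2) : ℝ)) * g k p := by
  have hp0 : (0 : ℝ) < p := by exact_mod_cast hp.pos
  have h1 : ∑ a ∈ range 3, f k (p ^ a) = 1 + |bp k p 1| * (p : ℝ) ^ (1 / 4 : ℝ) +
      |bp k p 2| * (p : ℝ) ^ (1 / 2 : ℝ) := by
    rw [sum_range_succ, sum_range_succ, sum_range_one, pow_zero, f_one]
    unfold f
    rw [bb_pow k hp one_ne_zero, bb_pow k hp two_ne_zero, pow_one]
    congr 2
    push_cast
    rw [← Real.rpow_natCast, ← Real.rpow_mul hp0.le]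
    norm_num
  rw [h1]
  have hexp : 1 + 9 * (p : ℝ) ^ (-(3 / 2) : ℝ) ≤ Real.exp (9 * (p : ℝ) ^ (-(3 / 2) : ℝ)) := by
    rw [add_comm]
    exact Real.add_one_le_exp _
  have hpos : 0 ≤ 9 * (p : ℝ) ^ (-(3 / 2) : ℝ) := by positivity
  by_cases hpk : p ∣ k
  · have h2 : |bp k p 1| = 1 / p := by
      unfold bp
      rw [if_pos hpk, if_pos rfl, abs_div, abs_neg, abs_one, Nat.abs_cast]
    have h3 : |bp k p 2| = 0 := by
      unfold bp
      rw [if_pos hpk, if_neg (by norm_num), abs_zero]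
    have h4 : (1 : ℝ) / p * (p : ℝ) ^ (1 / 4 : ℝ) = (p : ℝ) ^ (-(3 / 4) : ℝ) := by
      rw [show (-(3 / 4) : ℝ) = 1 / 4 - 1 by norm_num, Real.rpow_sub hp0, Real.rpow_one]
      ring
    rw [h2, h3, h4, zero_mul, add_zero]
    unfold g
    rw [if_pos hpk]
    have h5 : 0 ≤ 1 + (p : ℝ) ^ (-(3 / 4) : ℝ) := by positivity
    exact le_mul_of_one_le_left h5 (by linarith)
  · have hp3 : 3 ≤ p := by
      rcases hp.eq_two_or_odd' with h | h
      · exact absurd (h ▸ hk.two_dvd) hpk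
      · have := hp.two_le
        rcases this.lt_or_eq with h2 | h2
        · exact h2
        · subst h2
          exact absurd h (by decide)
    have hx : (3 : ℝ) ≤ p := by exact_mod_cast hp3
    have h2 : |bp k p 1| = 2 / ((p : ℝ) * (p - 2)) := by
      unfold bp
      rw [if_neg hpk, if_pos rfl, abs_of_nonneg]
      apply div_nonneg (by norm_num)
      apply mul_nonneg hp0.le
      linarith
    have h3 : |bp k p 2| = 1 / ((p : ℝ) * (p - 2)) := by
      unfold bp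
      rw [if_neg hpk, if_neg (by norm_num), if_pos rfl, neg_div, abs_neg, abs_of_nonneg]
      apply div_nonneg (by norm_num)
      apply mul_nonneg hp0.le
      linarith
    have h4 : (p : ℝ) ^ (1 / 4 : ℝ) ≤ (p : ℝ) ^ (1 / 2 : ℝ) :=
      Real.rpow_le_rpow_of_exponent_le (by linarith) (by norm_num)
    have h5 : 0 < (p : ℝ) ^ (1 / 2 : ℝ) := Real.rpow_pos_of_pos hp0 _
    have h6 : (p : ℝ) ^ (-(3 / 2) : ℝ) = (p : ℝ) ^ (1 / 2 : ℝ) / (p : ℝ) ^ 2 := by
      rw [show (-(3 / 2) : ℝ) = 1 / 2 - 2 by norm_num, Real.rpow_sub hp0]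
      norm_num
    have h7 : (0 : ℝ) < p * (p - 2) := mul_pos hp0 (by linarith)
    unfold g
    rw [if_neg hpk, mul_one]
    refine le_trans ?_ hexp
    rw [h2, h3, h6, add_assoc]
    refine add_le_add le_rfl ?_
    have h8 : 2 / ((p : ℝ) * (p - 2)) * (p : ℝ) ^ (1 / 4 : ℝ) +
        1 / ((p : ℝ) * (p - 2)) * (p : ℝ) ^ (1 / 2 : ℝ) ≤ 3 * (p : ℝ) ^ (1 / 2 : ℝ) / ((p : ℝ) * (p - 2)) := by
      rw [div_mul_eq_mul_div, div_mul_eq_mul_div, ← add_div]
      apply div_le_div_of_nonneg_right _ h7.le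
      linarith
    refine h8.trans ?_
    rw [mul_div_assoc', div_le_div_iff₀ h7 (by positivity)]
    have h9 : (p : ℝ) ^ 2 ≤ 3 * (p * (p - 2)) := by nlinarith
    nlinarith

theorem one_le_prod' {S : Finset ℕ} {F : ℕ → ℝ} (h : ∀ i ∈ S, 1 ≤ F i) : 1 ≤ ∏ i ∈ S, F i :=
  prod_induction F (fun x => 1 ≤ x) (fun _ _ ha hb => one_le_mul_of_one_le_of_one_le ha hb) le_rfl h

theorem prod_g_le {k : ℕ} (hk : k ≠ 0) (N : ℕ) :
    ∏ p ∈ N.primesBelow, g k p ≤ ∏ p ∈ k.primeFactors, (1 + (p : ℝ) ^ (-(3 / 4) : ℝ)) := by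
  have h1 : ∏ p ∈ N.primesBelow, g k p =
      ∏ p ∈ N.primesBelow.filter (· ∣ k), (1 + (p : ℝ) ^ (-(3 / 4) : ℝ)) := by
    unfold g
    rw [prod_filter]
  rw [h1]
  have hsub : N.primesBelow.filter (· ∣ k) ⊆ k.primeFactors := by
    intro p hp
    rw [mem_filter, Nat.mem_primesBelow] at hp
    exact Nat.mem_primeFactors.2 ⟨hp.1.2, hp.2, hk⟩
  rw [← prod_sdiff hsub]
  have h2 : 1 ≤ ∏ p ∈ k.primeFactors \ N.primesBelow.filter (· ∣ k), (1 + (p : ℝ) ^ (-(3 / 4) : ℝ)) :=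
    one_le_prod' fun p _ => by
      have : 0 ≤ (p : ℝ) ^ (-(3 / 4) : ℝ) := Real.rpow_nonneg (Nat.cast_nonneg _) _
      linarith
  have h3 : 0 ≤ ∏ p ∈ N.primesBelow.filter (· ∣ k), (1 + (p : ℝ) ^ (-(3 / 4) : ℝ)) :=
    prod_nonneg fun p _ => by positivity
  exact le_mul_of_one_le_left h3 h2

theorem summable32 : Summable (fun n : ℕ => (n : ℝ) ^ (-(3 / 2) : ℝ)) :=
  Real.summable_nat_rpow.2 (by norm_num)

theorem sum_le {k : ℕ} (hk0 : k ≠ 0) (hk : Even k) (T : Finset ℕ) :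
    ∑ n ∈ T, f k n ≤ Real.exp (9 * ∑' n : ℕ, (n : ℝ) ^ (-(3 / 2) : ℝ)) *
      ∏ p ∈ k.primeFactors, (1 + (p : ℝ) ^ (-(3 / 4) : ℝ)) := by
  obtain ⟨N, hN⟩ : ∃ N, ∀ n ∈ T, n < N := ⟨T.sup id + 1, fun n hn =>
    Nat.lt_succ_of_le (le_sup (f := id) hn)⟩
  have h1 := (EulerProduct.summable_and_hasSum_smoothNumbers_prod_primesBelow_tsum (f := f k)
    (f_one k) (fun h => f_mul k h) (fun {p} hp => by
      have := (hasSum_pow k hp).summable
      simpa [Real.norm_of_nonneg (f_nonneg k _)] using this) N).2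
  have h2 : ∑ n ∈ T, f k n ≤ ∏ p ∈ N.primesBelow, ∑' n, f k (p ^ n) := by
    have h3 := (hasSum_subtype_iff_indicator (f := f k) (s := N.smoothNumbers)).1 h1
    have h4 : ∑ n ∈ T, f k n = ∑ n ∈ T, (N.smoothNumbers).indicator (f k) n := by
      refine sum_congr rfl fun n hn => ?_
      rcases Nat.eq_zero_or_pos n with h | h
      · subst h
        rw [f_zero]
        by_cases h0 : 0 ∈ N.smoothNumbers
        · rw [Set.indicator_of_mem h0, f_zero]
        · rw [Set.indicator_of_notMem h0]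
      · rw [Set.indicator_of_mem (Nat.mem_smoothNumbers_of_lt h (hN n hn))]
    rw [h4]
    exact sum_le_hasSum T (fun n _ => Set.indicator_nonneg (fun _ _ => f_nonneg k _) n) h3
  refine h2.trans ?_
  have h3 : ∏ p ∈ N.primesBelow, ∑' n, f k (p ^ n) ≤
      ∏ p ∈ N.primesBelow, (Real.exp (9 * (p : ℝ) ^ (-(3 / 2) : ℝ)) * g k p) := by
    refine prod_le_prod (fun p _ => tsum_nonneg fun n => f_nonneg k _) fun p hp => ?_
    rw [Nat.mem_primesBelow] at hp
    rw [(hasSum_pow k hp.2).tsum_eq]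
    exact factor_le hk hp.2
  refine h3.trans ?_
  rw [prod_mul_distrib, ← Real.exp_sum, ← mul_sum]
  have h4 : ∑ p ∈ N.primesBelow, (p : ℝ) ^ (-(3 / 2) : ℝ) ≤ ∑' n : ℕ, (n : ℝ) ^ (-(3 / 2) : ℝ) :=
    summable32.sum_le_tsum _ fun n _ => Real.rpow_nonneg (Nat.cast_nonneg _) _
  have h5 : 0 ≤ ∏ p ∈ N.primesBelow, g k p :=
    prod_nonneg fun p _ => zero_le_one.trans (one_le_g k p)
  exact mul_le_mul (Real.exp_le_exp.2 (by linarith)) (prod_g_le hk0 N) h5 (Real.exp_pos _).le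

/-- package BABS -/
theorem babs : S_BABS := by
  refine ⟨Real.exp (9 * ∑' n : ℕ, (n : ℝ) ^ (-(3 / 2) : ℝ)), Real.exp_pos _, fun k hk1 hk => ?_⟩
  have hs : Summable (f k) := summable_of_sum_le (f_nonneg k) (sum_le (by omega) hk)
  exact ⟨hs, hs.tsum_le_of_sum_le (sum_le (by omega) hk)⟩

end Pool.Agent.P8H71.FG
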